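import Pool.Agent.helper66.SHD.Xzero

/-!
# A selectively highly divergent space whose Stone-Cech compactification is not

We construct (in ZFC) a Tychonoff non-compact selectively highly divergent space `X` such that
`βX` is not selectively highly divergent.
-/

set_option autoImplicit false

open Set Filter Topology

namespace Pool.Agent.Results.MP_b7f2db_gt.BetaNotSHD

open Pool.Agent.helper66.SHD

/-- A topological space `Z` is *selectively highly divergent* if for every sequence `(U n)` of
non-empty open subsets there are points `x n ∈ U n` such that no subsequence of `(x n)`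
converges in `Z`. -/
def SHD (Z : Type*) [TopologicalSpace Z] : Prop :=
  ∀ U : ℕ → Set Z, (∀ n, IsOpen (U n)) → (∀ n, (U n).Nonempty) →
    ∃ x : ℕ → Z, (∀ n, x n ∈ U n) ∧
      ∀ φ : ℕ → ℕ, StrictMono φ → ¬ ∃ z : Z, Tendsto (x ∘ φ) atTop (𝓝 z)

/-! ### Continuous images of `X0` in complete metric spaces are relatively compact -/

theorem totallyBounded_range {E : Type*} [PseudoMetricSpace E] (H : X0 → E) (hH : Continuous H) :
    TotallyBounded (range H) := by
  by_contra hcon
  rw [Metric.totallyBounded_iff] at hcon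
  push Not at hcon
  obtain ⟨ε, hε, hbad⟩ := hcon
  obtain ⟨y, -, hy⟩ := exists_seq_of_forall_finset_exists (α := X0) (fun _ => True)
    (fun x y => ε ≤ dist (H y) (H x)) (by
      intro s _
      have := hbad (H '' (s : Set X0)) (s.finite_toSet.image H)
      obtain ⟨_, ⟨y, rfl⟩, hy⟩ := not_subset.1 this
      refine ⟨y, trivial, fun x hx => ?_⟩
      by_contra hlt
      apply hy
      exact mem_iUnion₂.2 ⟨H x, ⟨x, hx, rfl⟩, Metric.mem_ball.2 (not_le.1 hlt)⟩)
  let U : ℕ → Set X0 := fun n => H ⁻¹' Metric.ball (H (y n)) (ε / 3)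
  obtain ⟨z, hz⟩ := X0_pseudocompact U (fun n => Metric.isOpen_ball.preimage hH)
    (fun n => ⟨y n, Metric.mem_ball_self (by positivity)⟩)
  have hN : H ⁻¹' Metric.ball (H z) (ε / 6) ∈ 𝓝 z :=
    hH.continuousAt.preimage_mem_nhds (Metric.ball_mem_nhds _ (by positivity))
  have hfr := frequently_atTop'.1 (hz _ hN)
  obtain ⟨m, -, ⟨p, hp1, hp2⟩⟩ := hfr 0
  obtain ⟨n, hmn, ⟨q, hq1, hq2⟩⟩ := hfr m
  have h1 := hy m n hmn
  have a1 : dist (H p) (H (y m)) < ε / 3 := hp1
  have a2 : dist (H p) (H z) < ε / 6 := hp2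
  have a3 : dist (H q) (H (y n)) < ε / 3 := hq1
  have a4 : dist (H q) (H z) < ε / 6 := hq2
  have h2 : dist (H (y n)) (H (y m)) ≤
      dist (H (y n)) (H q) + dist (H q) (H z) + (dist (H z) (H p) + dist (H p) (H (y m))) := by
    have t1 := dist_triangle (H (y n)) (H z) (H (y m))
    have t2 := dist_triangle (H (y n)) (H q) (H z)
    have t3 := dist_triangle (H z) (H p) (H (y m))
    linarith
  rw [dist_comm (H (y n)) (H q), dist_comm (H z) (H p)] at h2
  linarith

/-! ### The counterexample -/

/-- the ambient compact space -/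
abbrev YM : Type := OnePoint X0 × M1

/-- **The counterexample**: the subspace `X0 × M1 ∪ {∞} × (M1 \ S1)` of `OnePoint X0 × M1`. -/
abbrev XX : Type := {p : YM // p.1 ≠ OnePoint.infty ∨ p.2 ∈ S1ᶜ}

/-- the points over `X0` -/
def inX (y : X0) (m : M1) : XX := ⟨((y : OnePoint X0), m), Or.inl (OnePoint.coe_ne_infty y)⟩

theorem inX_continuous : Continuous fun p : X0 × M1 => inX p.1 p.2 :=
  ((OnePoint.continuous_coe.comp continuous_fst).prodMk continuous_snd).subtype_mk _

/-- Every continuous real function on `XX` extends to `OnePoint X0 × M1`. -/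
theorem extend (h : XX → ℝ) (hh : Continuous h) :
    ∃ ht : YM → ℝ, Continuous ht ∧ ∀ x : XX, ht x.1 = h x := by
  let H : C(X0, C(M1, ℝ)) :=
    ContinuousMap.curry ⟨fun p : X0 × M1 => h (inX p.1 p.2), hh.comp inX_continuous⟩
  have hHval : ∀ y m, H y m = h (inX y m) := fun y m => rfl
  have hcomp : IsCompact (closure (range H)) :=
    (totallyBounded_range H H.continuous).closure.isCompact_of_isClosed isClosed_closure
  -- pointwise limits
  have hpt : ∀ (m : M1) (hm : m ∈ S1ᶜ), Tendsto (fun y => H y m) (coclosedCompact X0)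
      (𝓝 (h ⟨(OnePoint.infty, m), Or.inr hm⟩)) := by
    intro m hm
    have h1 : Tendsto (fun y => inX y m) (coclosedCompact X0)
        (𝓝 (⟨(OnePoint.infty, m), Or.inr hm⟩ : XX)) := by
      rw [tendsto_subtype_rng]
      exact OnePoint.tendsto_coe_infty.prodMk_nhds tendsto_const_nhds
    exact (hh.tendsto _).comp h1
  have hclu : ∀ g : C(M1, ℝ), MapClusterPt g (coclosedCompact X0) H →
      ∀ (m : M1) (hm : m ∈ S1ᶜ), g m = h ⟨(OnePoint.infty, m), Or.inr hm⟩ := by
    intro g hg m hm
    obtain ⟨u, hu, hug⟩ := mapClusterPt_iff_ultrafilter.1 hg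
    have h1 : Tendsto (fun y => H y m) u (𝓝 (g m)) :=
      ((continuous_eval_const m).tendsto g).comp hug
    exact tendsto_nhds_unique h1 ((hpt m hm).mono_left hu)
  have hmem : closure (range H) ∈ map H (coclosedCompact X0) := by
    rw [mem_map]
    exact univ_mem' fun y => subset_closure ⟨y, rfl⟩
  obtain ⟨g, -, hg⟩ := hcomp (le_principal_iff.2 hmem)
  have hlim : Tendsto H (coclosedCompact X0) (𝓝 g) := by
    refine hcomp.le_nhds_of_unique_clusterPt hmem fun g' _ hg' => ?_
    have hd := S1_compl_dense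
    apply DFunLike.coe_injective
    refine Continuous.ext_on hd g'.continuous g.continuous fun m hm => ?_
    rw [hclu g' hg' m hm, hclu g hg m hm]
  let Ht : OnePoint X0 → C(M1, ℝ) := fun p => p.elim g H
  have hHt : Continuous Ht := by
    rw [OnePoint.continuous_iff]
    exact ⟨hlim, H.continuous⟩
  refine ⟨fun p => Ht p.1 p.2, ?_, ?_⟩
  · exact continuous_eval.comp ((hHt.comp continuous_fst).prodMk continuous_snd)
  · rintro ⟨⟨p, m⟩, hp⟩
    induction p using OnePoint.rec with
    | infty =>
      have hm : m ∈ S1ᶜ := hp.resolve_left fun h => h rfl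
      exact hclu g hg m hm
    | coe y => rfl

/-! ### `XX` is dense in the compact space, Tychonoff and not compact -/

theorem dense_aux : DenseRange fun p : D1 × S1 => (((jj p.1 : X0) : OnePoint X0), (p.2 : M1)) := by
  have h1 : DenseRange fun d : D1 => ((jj d : X0) : OnePoint X0) :=
    OnePoint.denseRange_coe.comp jj_dense OnePoint.continuous_coe
  have h2 : DenseRange (Subtype.val : S1 → M1) := S1_dense.denseRange_val
  exact h1.prodMap h2

theorem XX_dense : Dense {p : YM | p.1 ≠ OnePoint.infty ∨ p.2 ∈ S1ᶜ} := by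
  refine Dense.mono ?_ dense_aux
  rintro _ ⟨p, rfl⟩
  exact Or.inl (OnePoint.coe_ne_infty _)

theorem XX_not_compact : ¬ CompactSpace XX := by
  intro hc
  have hcl : IsClosed {p : YM | p.1 ≠ OnePoint.infty ∨ p.2 ∈ S1ᶜ} :=
    (isCompact_iff_compactSpace.2 hc).isClosed
  have huniv := hcl.closure_eq
  rw [XX_dense.closure_eq] at huniv
  obtain ⟨m, hm⟩ := S1_nonempty
  have : ((OnePoint.infty, m) : YM) ∈ {p : YM | p.1 ≠ OnePoint.infty ∨ p.2 ∈ S1ᶜ} :=
    huniv ▸ mem_univ _
  rcases this with h | h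
  · exact h rfl
  · exact h hm

/-! ### `XX` is selectively highly divergent -/

theorem XX_shd : SHD XX := by
  intro U hU hne
  have step : ∀ n, ∃ (d : D1) (m : M1), m ∈ S1 ∧ inX (jj d) m ∈ U n := by
    intro n
    obtain ⟨O, hO, hOU⟩ := isOpen_induced_iff.1 (hU n)
    obtain ⟨x, hx⟩ := hne n
    have hOne : O.Nonempty := ⟨x.1, by rw [← hOU] at hx; exact hx⟩
    obtain ⟨⟨d, m⟩, hdm⟩ := dense_aux.exists_mem_open hO hOne
    refine ⟨d, m, m.2, ?_⟩
    rw [← hOU]
    exact hdm
  choose d m hm hdm using step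
  let B : ℕ → Set K1 := fun n => {k | inX (jj ((d n).1, (d n).2.1, k)) (m n) ∈ U n}
  have hB : ∀ n, IsOpen (B n) := by
    intro n
    have hc : Continuous fun k : K1 => inX (jj ((d n).1, (d n).2.1, k)) (m n) := by
      have h1 : Continuous fun k : K1 => jj ((d n).1, (d n).2.1, k) :=
        jj_continuous.comp (continuous_const.prodMk (continuous_const.prodMk continuous_id))
      exact inX_continuous.comp (h1.prodMk continuous_const)
    exact (hU n).preimage hc
  obtain ⟨k, hkB, hk⟩ := K1_shd B hB fun n => ⟨(d n).2.2, hdm n⟩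
  refine ⟨fun n => inX (jj ((d n).1, (d n).2.1, k n)) (m n), hkB, ?_⟩
  rintro φ hφ ⟨⟨⟨p, q⟩, hpq⟩, hz⟩
  have hz' : Tendsto (fun i => ((inX (jj ((d (φ i)).1, (d (φ i)).2.1, k (φ i))) (m (φ i)) : XX)
      : YM)) atTop (𝓝 (p, q)) := tendsto_subtype_rng.1 hz
  have hz1 : Tendsto (fun i => ((jj ((d (φ i)).1, (d (φ i)).2.1, k (φ i)) : X0) : OnePoint X0))
      atTop (𝓝 p) := (continuous_fst.tendsto _).comp hz'
  have hz2 : Tendsto (fun i => m (φ i)) atTop (𝓝 q) := (continuous_snd.tendsto _).comp hz'
  induction p using OnePoint.rec with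
  | infty =>
    have hq : q ∈ S1ᶜ := hpq.resolve_left fun h => h rfl
    exact hq (S1_seqClosed _ (fun i => hm (φ i)) q hz2)
  | coe y =>
    have h1 : Tendsto (fun i => jj ((d (φ i)).1, (d (φ i)).2.1, k (φ i))) atTop (𝓝 y) :=
      OnePoint.isOpenEmbedding_coe.tendsto_nhds_iff.2 hz1
    have h2 : Tendsto (fun i => proj (jj ((d (φ i)).1, (d (φ i)).2.1, k (φ i))).1) atTop
        (𝓝 (proj y.1)) := ((proj_continuous.comp continuous_subtype_val).tendsto y).comp h1
    refine hk φ hφ (proj y.1) (h2.congr fun i => ?_)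
    exact proj_iota _

/-! ### The compact space is not selectively highly divergent -/

theorem YM_not_shd : ¬ SHD YM := by
  intro h
  obtain ⟨x, hx, hdiv⟩ := h (fun n => (((↑) : X0 → OnePoint X0) '' VV n) ×ˢ (univ : Set M1))
    (fun n => (OnePoint.isOpenMap_coe _ (VV_open n)).prod isOpen_univ)
    (fun n => ((VV_nonempty n).image _).prod univ_nonempty)
  have : ∀ n, ∃ (a : C1) (k : K1), ((jj (n, a, k) : X0) : OnePoint X0) = (x n).1 := by
    intro n
    obtain ⟨y, hy, hyx⟩ := (hx n).1
    obtain ⟨a, k, hak⟩ := exists_of_VV n y hy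
    exact ⟨a, k, by rw [hak, hyx]⟩
  choose c k hck using this
  obtain ⟨φ, hφ, hlim⟩ := selection c k
  obtain ⟨m, ψ, hψ, hm⟩ := M1_seqCompact fun i => (x (φ i)).2
  refine hdiv (φ ∘ ψ) (hφ.comp hψ) ⟨(OnePoint.infty, m), ?_⟩
  have h1 : Tendsto (fun i => ((jj (φ i, c (φ i), k (φ i)) : X0) : OnePoint X0)) atTop
      (𝓝 OnePoint.infty) := OnePoint.tendsto_coe_infty.comp hlim
  have h2 : Tendsto (fun i => (x (φ (ψ i))).1) atTop (𝓝 OnePoint.infty) := by
    refine (h1.comp hψ.tendsto_atTop).congr fun i => ?_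
    exact hck _
  exact h2.prodMk_nhds hm

/-! ### The Stone-Cech compactification of `XX` -/

/-- the canonical map from `βX` to the compact space -/
noncomputable def Phi : StoneCech XX → YM :=
  stoneCechExtend (g := (Subtype.val : XX → YM)) continuous_subtype_val

theorem Phi_continuous : Continuous Phi := continuous_stoneCechExtend _

theorem Phi_unit (x : XX) : Phi (stoneCechUnit x) = x.1 := stoneCechExtend_stoneCechUnit _ x

theorem Phi_injective : Function.Injective Phi := by
  intro a b hab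
  by_contra hne
  obtain ⟨g, hg0, hg1, -⟩ := exists_continuous_zero_one_of_isClosed (X := StoneCech XX)
    (isClosed_singleton (x := a)) (isClosed_singleton (x := b))
    (by simpa using hne)
  obtain ⟨ht, htc, hte⟩ := extend (fun x => g (stoneCechUnit x))
    (g.continuous.comp continuous_stoneCechUnit)
  have heq : (fun w => ht (Phi w)) = g := by
    refine Continuous.ext_on (denseRange_stoneCechUnit (α := XX)) (htc.comp Phi_continuous)
      g.continuous ?_
    rintro _ ⟨x, rfl⟩
    simp only [Phi_unit]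
    exact hte x
  have h0 : g a = 0 := hg0 rfl
  have h1 : g b = 1 := hg1 rfl
  rw [← heq] at h0 h1
  have h0' : ht (Phi a) = 0 := h0
  have h1' : ht (Phi b) = 1 := h1
  rw [hab, h1'] at h0'
  exact one_ne_zero h0'

theorem Phi_surjective : Function.Surjective Phi := by
  rw [← range_eq_univ]
  have hcl : IsClosed (range Phi) := (isCompact_range Phi_continuous).isClosed
  have hsub : {p : YM | p.1 ≠ OnePoint.infty ∨ p.2 ∈ S1ᶜ} ⊆ range Phi := by
    intro p hp
    exact ⟨stoneCechUnit ⟨p, hp⟩, Phi_unit _⟩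
  rw [← hcl.closure_eq]
  exact (XX_dense.mono hsub).closure_eq

theorem beta_not_shd : ¬ SHD (StoneCech XX) := by
  intro h
  apply YM_not_shd
  intro U hU hne
  obtain ⟨x, hx, hdiv⟩ := h (fun n => Phi ⁻¹' U n) (fun n => (hU n).preimage Phi_continuous)
    (fun n => (hne n).preimage Phi_surjective)
  refine ⟨fun n => Phi (x n), hx, ?_⟩
  rintro φ hφ ⟨z, hz⟩
  obtain ⟨w, rfl⟩ := Phi_surjective z
  have hemb := Phi_continuous.isClosedEmbedding Phi_injective
  exact hdiv φ hφ ⟨w, hemb.isInducing.tendsto_nhds_iff.2 hz⟩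

/-- **Main theorem.** There is a Tychonoff non-compact selectively highly divergent space `X`
whose Stone-Cech compactification is not selectively highly divergent. -/
theorem result : ∃ (X : Type) (_ : TopologicalSpace X),
    T35Space X ∧ ¬ CompactSpace X ∧ SHD X ∧ ¬ SHD (StoneCech X) :=
  ⟨XX, inferInstance, inferInstance, XX_not_compact, XX_shd, beta_not_shd⟩

end Pool.Agent.Results.MP_b7f2db_gt.BetaNotSHD
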